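import Pool.Agent.APH.Main

/-!
# Nondeterministic branching programs with few access patterns cannot complement

The input of `offF n L` consists of `L` points of `{0,1}^n` and of `5 n ^ 2` systems of about
`2 log n` linear equations over the field with two elements; it is accepted if no point satisfies one
of the systems. For `L = 4 n ^ 3` there are `N ≤ 8 n ^ 4` input bits.

(1) A deterministic machine with random access to the input bits needs time at least a constant times
`N log N / log log N`, or memory at least `N ^ (1 / 5)`.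

(2) The same time is needed by nondeterministic branching programs with less than `2 ^ (N ^ (1 / 5))`
nodes in which the guesses hardly influence which bits of the points are read: at most
`2 ^ (N ^ (1 / 5))` sets of bits are read between any two given nodes. The states may depend on the
guesses in any way.

(3) The complement has such programs with at most `N ^ 3` nodes, which are moreover read-once.

(4) is the general bound, of which (1) and (2) are special cases; it is true even if the systems are
known in advance.
-/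

namespace Pool.Agent.Results.MP_a77cad_lc.AccessPatternBP

open Pool.Agent.Lib_helper20.SRO Pool.Agent.Lib_helper26.AC Pool.Agent.APH

/-- **Theorem.** There are constants `c > 0` and `C` such that for all large `n`, where
`N ≤ 8 n ^ 4` is the number of input bits of `F = offF n (4 n ^ 3)`:
(1) every deterministic machine which computes `F` in at most `c N log N / log log N` steps has at
least `2 ^ (N ^ (1 / 5))` states;
(2) every nondeterministic branching program for `F` with at most `2 ^ (N ^ (1 / 5))` access
patterns, in which each accepted input has an accepting walk with at most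
`c N log N / log log N` tests of bits of the points, has at least `2 ^ (N ^ (1 / 5))` nodes;
(3) the complement of `F` has a nondeterministic branching program with at most `N ^ 3` nodes and
one access pattern, in which every variable is tested at most once on every source-sink walk.
(4) In general, for `n ≥ 16` there are systems of equations `s` such that for all `L ≥ 1` and
`k ≥ 1` with `(k + 1) ^ (C k) ≤ n`: every nondeterministic branching program that computes
`offF n L` on the inputs with the systems `s`, with at most `a` access patterns, in which each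
accepted input has an accepting walk with at most `k n L` tests of bits of the points, has at least
`2 ^ (n / (k + 1) ^ (C k)) / (a L)` nodes. -/
theorem result : ∃ (c : ℝ) (C n₀ : ℕ), 0 < c ∧
    (∀ n ≥ n₀, ∀ N : ℕ, N = Fintype.card (VarB n (4 * n ^ 3)) →
      (4 * n ^ 4 ≤ N ∧ N ≤ 8 * n ^ 4) ∧
      (∀ (V : Type) [Fintype V] (M : Mach (VarB n (4 * n ^ 3)) V) (T : ℕ),
        (T : ℝ) ≤ c * N * Real.log N / Real.log (Real.log N) → M.Decides T (offF n (4 * n ^ 3)) →
        (2 : ℝ) ^ ((N : ℝ) ^ (1 / 5 : ℝ)) ≤ Fintype.card V) ∧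
      (∀ (Q : Type) [Fintype Q] (G : NBP (VarB n (4 * n ^ 3)) Q) (a m : ℕ),
        (a : ℝ) ≤ 2 ^ ((N : ℝ) ^ (1 / 5 : ℝ)) →
        (m : ℝ) ≤ c * N * Real.log N / Real.log (Real.log N) →
        G.AccessPatterns a → G.FewTests m → G.Computes (offF n (4 * n ^ 3)) →
        (2 : ℝ) ^ ((N : ℝ) ^ (1 / 5 : ℝ)) ≤ Fintype.card Q) ∧
      ∃ (Q : Type) (_ : Fintype Q) (G : NBP (VarB n (4 * n ^ 3)) Q),
        Fintype.card Q ≤ N ^ 3 ∧ G.AccessPatterns 1 ∧ G.SyntacticReadOnce ∧
        G.Computes (fun v => !offF n (4 * n ^ 3) v)) ∧
    ∀ n : ℕ, 16 ≤ n → ∃ s : Coef n → Bool, ∀ L k : ℕ, 1 ≤ L → 1 ≤ k → (k + 1) ^ (C * k) ≤ n →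
      ∀ (Q : Type) [Fintype Q] (G : NBP (VarB n L) Q) (a : ℕ),
        AccessPatternsAt G s a → FewTestsAt G s (k * (n * L)) → ComputesAt G s (offF n L) →
        (2 : ℝ) ^ ((n : ℝ) / (k + 1) ^ (C * k)) ≤ L * a * Fintype.card Q := by
  obtain ⟨n₀, h16, hnum⟩ := num
  refine ⟨1 / 100000, 260, n₀, by norm_num, ?_, fun n hn => offF_lower hn⟩
  intro n hn N hN
  have hn16 : 16 ≤ n := h16.trans hn
  have hn3 : 1 ≤ 4 * n ^ 3 := by
    have : 0 < n ^ 3 := by positivity
    omega
  have h1 : n * (4 * n ^ 3) ≤ N := by
    rw [hN]
    exact card_ge _ n (4 * n ^ 3)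
  have h2 : N ≤ 2 * (n * (4 * n ^ 3)) := by
    rw [hN]
    exact card_varB hn16 le_rfl
  have e1 : n * (4 * n ^ 3) = 4 * n ^ 4 := by ring
  have hn4 : 0 < n ^ 4 := by positivity
  obtain ⟨k, hk1, hk2, hk3, hk4⟩ := hnum n hn (4 * n ^ 3) N h1 h2 (by omega) (by omega)
  have hN400 : 400 ≤ N := by
    have : 16 ^ 4 ≤ n ^ 4 := Nat.pow_le_pow_left hn16 4
    omega
  have hLN : 4 * n ^ 3 ≤ N := le_trans (Nat.le_mul_of_pos_left _ (by omega)) h1
  obtain ⟨s, hs⟩ := offF_lower hn16
  obtain ⟨hB, hA⟩ := headline hN400 hLN hk3 hk4 (offF n (4 * n ^ 3))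
    (fun Q _ G a hacc hfew hcomp => hs _ k hn3 hk1 hk2 Q G a
      (fun b u v => hacc (Sum.elim s b) u v) (fun b hb => hfew _ hb) (fun b => hcomp _))
  refine ⟨⟨by omega, by omega⟩, hA, hB, ?_⟩
  obtain ⟨Q, hQ, G, g1, g2, g3, g4⟩ := compl_offF n (4 * n ^ 3) hn16 hn3
  exact ⟨Q, hQ, G, by rw [hN]; exact g4, g2, g1, g3⟩

end Pool.Agent.Results.MP_a77cad_lc.AccessPatternBP
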